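import Pool.Agent.K1H69.MZ.Main
import Pool.Agent.K1H69.MZ.Zar
import Pool.Agent.K1H45.MZ.Red

/-!
# Mazur's question on local Zariski closures for projective varieties with automorphisms

Let `X = V(S)` be a projective variety over a number field `K` and let `φ 0, ..., φ (m - 1)` be
automorphisms of `X` over `K`. We prove that there is `N ≥ 1` such that for every
non-archimedean completion `L` of `K` at a place which does not divide `N` there is `k ≥ 1` such
that every irreducible component of every local Zariski closure `Z_x`, `x ∈ X(L)`, is stable under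
the iterates `φ i ^ k`. So Mazur's question has a positive answer for `X` and `L` if only finitely
many irreducible subvarieties of `X` with a Zariski dense set of `K`-points are stable under the
`φ i ^ k`, and the local closures for all these places together are finitely many if there are only
finitely many such subvarieties for all `k` together.

Idea of the proof. By the Nullstellensatz the automorphisms have good reduction outside `N`, so they
are isometries of `X(L)`, and the residue classes modulo `p²` are periodic. On a residue class the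
iterates are interpolated in time: a power `H` is idempotent modulo `p²` on polynomials, so the
divided differences of the values of a form along an orbit decrease `p`-adically. Hence
the time `p ^ c` maps move the points by at most `|p| ^ c`, and a form which vanishes at infinitely
many points of the orbit of a point vanishes at all of them. A form `f₀ g` in the ideal of `Z_x`,
where `f₀` vanishes on all the components of `Z_x` but `W` and `g` on `W`, vanishes along the
returns near `x` of the orbit of a `K`-point `y` of `W` near `x` with `f₀(y) ≠ 0`; so `g` vanishes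
along the whole orbit of `y`.
-/

set_option autoImplicit false

namespace Pool.Agent.Results.MP_f9f755_nt.Automorphisms

open MvPolynomial

/-- The values of the tuple `f` of polynomials over `K` at the vector `z` over the extension `F`
of `K`. -/
noncomputable def value {K F : Type} [Field K] [Field F] (τ : K →+* F) {n : ℕ}
    (f : Fin (n + 1) → MvPolynomial (Fin (n + 1)) K) (z : Fin (n + 1) → F) : Fin (n + 1) → F :=
  fun i => eval₂ τ z (f i)

/-- The tuples `f a` define a map from `V(S)` to `V(S)` of which the tuples `g b` define a left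
inverse: over every extension field `F` of `K`, at every point `z` of `V(S)`, one of the tuples
`f a` does not vanish; each `f a` which does not vanish at `z` has its value in `V(S)`, and each
`g b` which does not vanish at this value brings it back to the point `z`. -/
def Inverts {K : Type} [Field K] {n : ℕ} (S : Set (MvPolynomial (Fin (n + 1)) K)) {r : ℕ}
    (f g : Fin r → Fin (n + 1) → MvPolynomial (Fin (n + 1)) K) : Prop :=
  ∀ (F : Type) [Field F] (τ : K →+* F) (z : Fin (n + 1) → F), z ≠ 0 →
    (∀ s ∈ S, eval₂ τ z s = 0) →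
    (∃ a, value τ (f a) z ≠ 0) ∧
    ∀ a, value τ (f a) z ≠ 0 →
      (∀ s ∈ S, eval₂ τ (value τ (f a) z) s = 0) ∧
      ∀ b, value τ (g b) (value τ (f a) z) ≠ 0 →
        ∃ c : F, value τ (g b) (value τ (f a) z) = c • z

/-- An automorphism of the projective variety `V(S)` over `K` together with its inverse, each
of them given by finitely many tuples of forms of positive degree. -/
structure Automorphism {K : Type} [Field K] {n : ℕ}
    (S : Set (MvPolynomial (Fin (n + 1)) K)) where
  r : ℕ
  f : Fin r → Fin (n + 1) → MvPolynomial (Fin (n + 1)) K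
  g : Fin r → Fin (n + 1) → MvPolynomial (Fin (n + 1)) K
  d : Fin r → ℕ
  e : Fin r → ℕ
  d_pos : ∀ a, 0 < d a
  e_pos : ∀ a, 0 < e a
  f_hom : ∀ a i, (f a i).IsHomogeneous (d a)
  g_hom : ∀ a i, (g a i).IsHomogeneous (e a)
  left : Inverts S f g
  right : Inverts S g f

/-- `w` represents the image of the point represented by `z` under the `k`-th iterate of `φ`. -/
def Image {K : Type} [Field K] {n : ℕ} {S : Set (MvPolynomial (Fin (n + 1)) K)}
    (φ : Automorphism S) : ℕ → (Fin (n + 1) → K) → (Fin (n + 1) → K) → Prop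
  | 0, z, w => w = z
  | k + 1, z, w => ∃ v, Image φ k z v ∧ ∃ a, w = value (RingHom.id K) (φ.f a) v ∧ w ≠ 0

/-- The `K`-points (nonzero vectors) at which all the elements of `P` vanish. -/
def points {K : Type} [Field K] {n : ℕ} (P : Ideal (MvPolynomial (Fin (n + 1)) K)) :
    Set (Fin (n + 1) → K) :=
  {z | z ≠ 0 ∧ ∀ f ∈ P, eval z f = 0}

/-- The ideals of the irreducible subvarieties `W` of `V(S)` which have a Zariski dense set of
`K`-points, and whose `K`-points are stable under the `k`-th iterates of all the `φ i`. -/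
def Stable {K : Type} [Field K] {n : ℕ} (S : Set (MvPolynomial (Fin (n + 1)) K)) {m : ℕ}
    (φ : Fin m → Automorphism S) (k : ℕ) : Set (Ideal (MvPolynomial (Fin (n + 1)) K)) :=
  {P | P.IsPrime ∧ (∀ s ∈ S, s ∈ P) ∧
    (∀ f, f ∈ P ↔ ∀ z ∈ points P, ∀ t : K, eval (t • z) f = 0) ∧
    ∀ i, ∀ z ∈ points P, ∀ w, Image (φ i) k z w → w ∈ points P}

/-- The homogeneous ideals of the local Zariski closures `Z_x` of the set of `K`-points of `V(S)`
at the points `x` of `V(S)` over `L`. -/
def localIdeals {K : Type} [Field K] {L : Type} [NontriviallyNormedField L] (σ : K →+* L) {n : ℕ}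
    (S : Set (MvPolynomial (Fin (n + 1)) K)) : Set (Set (MvPolynomial (Fin (n + 1)) K)) :=
  {J | ∃ x : Fin (n + 1) → L, x ≠ 0 ∧ (∀ g ∈ S, eval₂ σ x g = 0) ∧
    J = {f : MvPolynomial (Fin (n + 1)) K |
      ∃ U ∈ nhds x, ∀ y : Fin (n + 1) → K, y ≠ 0 → (∀ g ∈ S, eval y g = 0) →
        (∃ c : L, c ≠ 0 ∧ (fun i => c * σ (y i)) ∈ U) → ∀ t : K, eval (t • y) f = 0}}

/-- The same data in the notation of the helper files. -/
def Automorphism.toAut {K : Type} [Field K] {n : ℕ} {S : Set (MvPolynomial (Fin (n + 1)) K)}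
    (φ : Automorphism S) : Pool.Agent.K1H69.MZ.Aut S where
  m := φ.r
  f := φ.f
  g := φ.g
  d := φ.d
  e := φ.e
  d_pos := φ.d_pos
  e_pos := φ.e_pos
  f_hom := φ.f_hom
  g_hom := φ.g_hom
  left := φ.left
  right := φ.right

lemma img_of_image {K : Type} [Field K] {n : ℕ} {S : Set (MvPolynomial (Fin (n + 1)) K)}
    (φ : Automorphism S) (k : ℕ) : ∀ {z w : Fin (n + 1) → K}, Image φ k z w →
      Pool.Agent.K1H69.MZ.Img φ.toAut k z w := by
  induction k with
  | zero => intro z w h; exact h
  | succ k ih =>
    rintro z w ⟨v, hv, a, hw⟩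
    exact ⟨v, ih hv, a, hw⟩

/-- **Local Zariski closures on varieties with automorphisms.** -/
theorem result (K : Type) [Field K] [NumberField K] (n : ℕ)
    (S : Set (MvPolynomial (Fin (n + 1)) K)) (hS : ∀ s ∈ S, ∃ d : ℕ, s.IsHomogeneous d)
    (m : ℕ) (φ : Fin m → Automorphism S) :
    ∃ N : ℕ, 0 < N ∧
      -- (1), (2): the places which do not divide `N`
      (∀ (L : Type) [NontriviallyNormedField L] [CompleteSpace L] [IsUltrametricDist L]
        (σ : K →+* L), DenseRange σ → ‖(N : L)‖ = 1 →
        ∃ k : ℕ, 0 < k ∧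
          (∀ J ∈ localIdeals σ S, ∃ T : Set (Ideal (MvPolynomial (Fin (n + 1)) K)),
            T.Finite ∧ T ⊆ Stable S φ k ∧ J = {f | ∀ P ∈ T, f ∈ P}) ∧
          ((Stable S φ k).Finite → (localIdeals σ S).Finite)) ∧
      -- (3): all these places together
      ({P | ∃ k : ℕ, 0 < k ∧ P ∈ Stable S φ k}.Finite →
        {J | ∃ (L : Type) (_ : NontriviallyNormedField L) (_ : CompleteSpace L)
          (_ : IsUltrametricDist L) (σ : K →+* L), DenseRange σ ∧ ‖(N : L)‖ = 1 ∧
            J ∈ localIdeals σ S}.Finite) := by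
  obtain ⟨N, hN, h⟩ := Pool.Agent.K1H69.MZ.main_of Pool.Agent.K1H45.MZ.S_Red_holds
    Pool.Agent.K1H69.MZ.S_Zar_holds K n S hS m fun i => (φ i).toAut
  have key : ∀ (L : Type) [NontriviallyNormedField L] [CompleteSpace L] [IsUltrametricDist L]
      (σ : K →+* L), DenseRange σ → ‖(N : L)‖ = 1 → ∃ k : ℕ, 0 < k ∧
        ∀ J ∈ localIdeals σ S, ∃ T : Set (Ideal (MvPolynomial (Fin (n + 1)) K)),
          T.Finite ∧ T ⊆ Stable S φ k ∧ J = {f | ∀ P ∈ T, f ∈ P} := by
    intro L _ _ _ σ hσ hNL
    obtain ⟨k, hk, hx⟩ := h L σ hσ hNL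
    refine ⟨k, hk, ?_⟩
    rintro J ⟨x, hx0, hxS, rfl⟩
    obtain ⟨T, hT1, hT2, hT3⟩ := hx x hx0 hxS
    refine ⟨T, hT1, fun P hP => ?_, ?_⟩
    · obtain ⟨h1, h2, h3, h4⟩ := hT2 hP
      refine ⟨h1, h2, fun f => ?_, fun i z hz w hw => h4 i z hz w (img_of_image (φ i) k hw)⟩
      have h5 : f ∈ P ↔ f ∈ Pool.Agent.K1H69.MZ.VI (Pool.Agent.K1H69.MZ.Zset
          (P : Set (MvPolynomial (Fin (n + 1)) K))) := by rw [← h3]
      exact h5
    · ext f
      refine Iff.trans ?_ (hT3 f)
      constructor
      · rintro ⟨U, hU, hf⟩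
        exact ⟨U, hU, fun y hy t => hf y hy.1 hy.2.1 hy.2.2 t⟩
      · rintro ⟨U, hU, hf⟩
        exact ⟨U, hU, fun y h1 h2 h3 t => hf y ⟨h1, h2, h3⟩ t⟩
  refine ⟨N, hN, ?_, fun hfin => ?_⟩
  · intro L _ _ _ σ hσ hNL
    obtain ⟨k, hk, hT⟩ := key L σ hσ hNL
    refine ⟨k, hk, hT, fun hfin => ?_⟩
    refine (hfin.finite_subsets.image fun T => {f | ∀ P ∈ T, f ∈ P}).subset ?_
    intro J hJ
    obtain ⟨T, -, hT2, hT3⟩ := hT J hJ
    exact ⟨T, hT2, hT3.symm⟩
  · refine (hfin.finite_subsets.image fun T => {f | ∀ P ∈ T, f ∈ P}).subset ?_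
    rintro J ⟨L, _, _, _, σ, hσ, hNL, hJ⟩
    obtain ⟨k, hk, hT⟩ := key L σ hσ hNL
    obtain ⟨T, -, hT2, hT3⟩ := hT J hJ
    exact ⟨T, fun P hP => ⟨k, hk, hT2 hP⟩, hT3.symm⟩

end Pool.Agent.Results.MP_f9f755_nt.Automorphisms
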