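import Pool.Agent.K1H12.QH.Toric

/-!
# MP_f9f755_nt: Mazur's question for varieties with finitely many orbits

`K` is a field (for instance a number field), `L` is a nontrivially normed field with a homomorphism
`σ : K →+* L` of dense range (for instance the completion of `K` at a place). `X ⊆ ℙⁿ` is the projective
variety over `K` given by the forms in `S` (it may be singular and reducible), and `Z_x` is the local
Zariski closure of `X(K)` at the point `x` over `L`, as in Mazur's question; its ideal is
`localIdeal σ S x`. `W ⊆ X` is the closed subset given by the forms in `S' ⊇ S`, for instance `W = ∅`
(`1 ∈ S'`).

(1) Let `𝓕` be a set of algebraic families of rational self-maps of the space of the homogeneous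
coordinates, polynomial in the coordinates and in the parameters `t`, the identity for `t = 0`, which
preserve the set of the `K`-points of `X` (`Preserves`). For a `K`-point `y` let `R(y)` be the set of the
points over the algebraic closure of `K` which can be reached from `y` by these maps (`Reach`; their
Zariski closures have the ideals `reachIdeal 𝓕 y`). If the sets `R(y)`, for the `K`-points `y` outside of
`W`, have only finitely many Zariski closures, then each `Z_x` is the union of the local Zariski closure
of `W(K)` at `x` and of some of these closures. If the answer to Mazur's question is positive for `W`,
then it is positive for `X`.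

(2) Let `G ⊆ GL_{n+1}` be a group over the algebraic closure of `K` which preserves `X` and is generated
by the scalars and by the invertible members of algebraic families of matrices `A(t)` over `K` with
`A(0) = 1`. By a theorem of Chevalley (connected linear algebraic groups in characteristic zero are
unirational) these are, up to scalars, the connected linear algebraic groups over `K`. If only finitely
many orbits of `G` outside of `W` contain `K`-points, then each `Z_x` is the union of the local Zariski
closure of `W(K)` at `x` and of closures of orbits; and if the answer to Mazur's question is positive
for `W` then it is positive for `X`. In particular **the answer to Mazur's question is positive for all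
projective varieties on which a connected linear algebraic group acts linearly with finitely many
orbits**, for all places: for example for flag varieties and Schubert varieties, spherical varieties
(embedded equivariantly), determinantal varieties, the closures of nilpotent orbits and of the orbits of
prehomogeneous spaces.

(3) For projective toric varieties, normal or not, with a split torus and arbitrary coefficients
`c i ≠ 0`, given by the binomial equations `toricEquations a c`, the answer is positive.

Idea of the proof. A polynomial which vanishes at the `K`-points of `X` near `y` vanishes at the points
`A₁(t₁) ⋯ A_r(t_r) y` for all small parameters over `K`, so for all parameters, by polynomial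
identity. For (3): points with the same vanishing coordinates differ by an element of the torus, because
the multiplicative group of an algebraically closed field is divisible, hence injective.

The starting result `BracketConics` treats vector fields whose brackets generate the tangent space
outside of finitely many `K`-points; here there may be many strata of positive dimension.
-/

set_option autoImplicit false

namespace Pool.Agent.Results.MP_f9f755_nt.FinitelyManyOrbits

open MvPolynomial Pool.Agent.K1H12.QH

/-- **Mazur's question for varieties with finitely many orbits.** -/
theorem result (K : Type) [Field K] (L : Type) [NontriviallyNormedField L] (σ : K →+* L)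
    (hσ : DenseRange σ) (n : ℕ) :
    -- algebraic families of symmetries
    (∀ S S' : Set (MvPolynomial (Fin (n + 1)) K), (∀ f ∈ S', ∃ d : ℕ, f.IsHomogeneous d) →
      S ⊆ S' → ∀ 𝓕 : Set (Family K n), Preserves 𝓕 S → (reachIdeals S S' 𝓕).Finite →
      (∀ x : Fin (n + 1) → L, ∃ 𝓣 ⊆ reachIdeals S S' 𝓕,
        localIdeal σ S x = localIdeal σ S' x ∩ ⋂₀ 𝓣) ∧
      ((localIdeals σ S').Finite → (localIdeals σ S).Finite)) ∧
    -- linear groups
    (∀ S S' : Set (MvPolynomial (Fin (n + 1)) K), (∀ f ∈ S', ∃ d : ℕ, f.IsHomogeneous d) →
      S ⊆ S' → ∀ 𝓐 : Set (MatrixFamily K n), Stable S (grp 𝓐 (AlgebraicClosure K)) →
      (orbits S S' (grp 𝓐 (AlgebraicClosure K))).Finite →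
      (∀ x : Fin (n + 1) → L, ∃ 𝓞 ⊆ orbits S S' (grp 𝓐 (AlgebraicClosure K)),
        localIdeal σ S x = localIdeal σ S' x ∩ idealOf (⋃₀ 𝓞)) ∧
      ((localIdeals σ S').Finite → (localIdeals σ S).Finite)) ∧
    -- toric varieties
    (∀ (r : ℕ) (a : Fin (n + 1) → Fin r → ℕ) (c : Fin (n + 1) → K), (∀ i, c i ≠ 0) →
      (localIdeals σ (toricEquations a c)).Finite) :=
  ⟨fun _ _ h₁ h₂ _ h₃ h₄ => families hσ h₁ h₂ h₃ h₄,
    fun _ _ h₁ h₂ _ h₃ h₄ => groups hσ h₁ h₂ h₃ h₄, fun _ a _ hc => toric hσ a hc⟩

end Pool.Agent.Results.MP_f9f755_nt.FinitelyManyOrbits
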