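import Pool.Agent.K1H82.KV.Fin
import Pool.Agent.K1H82.KV.Exm
import Pool.Agent.K1H82.KV.Iso
import Pool.Agent.K1H26.KT.Den
import Pool.Agent.K1H33.KT.Sml
import Pool.Agent.K1H82.KA.Ell

/-!
# Mazur's question for quotients of products of torsors of tori and of simple abelian varieties and
# affine spaces
-/

set_option autoImplicit false

namespace Pool.Agent.Results.MP_f9f755_nt.TorsorAffineQuotients

open MvPolynomial Pool.Agent.K1H82.KM Pool.Agent.K1H82.KR Pool.Agent.K1H82.KS Pool.Agent.K1H82.KV

/-- Let `K` be a number field and `X` a projective variety over `K` with a closed subset `W` (which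
may be empty: `eqW = {1}`), such that the set of the rational points of `X` outside `W` is the union
of finitely many sets `X_i(K) ∖ W_i`, where `X_i ∖ W_i` is the quotient of an open subset of a
product of a torsor of a torus, an affine space and torsors of geometrically simple abelian
varieties over `K` by a group (finite or infinite) which acts on the torsors of the abelian
varieties through a finite quotient. Then there is a finite set of ideals which contains the ideals
of the local Zariski closures of `X(K) ∖ W` at all the points of the products of the `X(L i)`, for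
**all** sets of completions `L i` of `K` (one place, finitely many places, or all the places). -/
theorem result : ∀ (K : Type) [Field K] [NumberField K] (N : ℕ)
    (eqX eqW : Set (MvPolynomial (Fin N) K)) (κ : Type) [Finite κ] (p : κ → PieceV K N),
    (∀ y, y ∈ RatPts eqX eqW ↔ ∃ i, y ∈ RatPts (p i).X.eqX (p i).X.eqW) →
    ∃ 𝒯 : Set (Set (MvPolynomial (Fin N) K)), 𝒯.Finite ∧
      ∀ (ι : Type) (L : ι → Type) [∀ i, NontriviallyNormedField (L i)]
        [∀ i, CompleteSpace (L i)] (σ : ∀ i, K →+* L i), (∀ i, DenseRange (σ i)) →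
        ∀ x : ∀ i, Fin N → L i, (∀ i, x i ≠ 0) → IdealAt eqX eqW σ x ∈ 𝒯 := by
  intro K _ _ N eqX eqW κ _ p h
  exact uni_all (uni_cover h (fun i => uni_pieceV K1H26.KT.t_DEN K1H33.KT.t_SML (p i)))

/-- The elliptic curves `y² = x³ + a x + b` with the usual group laws are instances of the structure
`AbVar` and geometrically simple, so that `result` holds unconditionally for the products of
elliptic curves, tori and affine spaces. -/
theorem weierstrass {K : Type} [Field K] [CharZero K] (a b : K) (hD : 4 * a ^ 3 + 27 * b ^ 2 ≠ 0) :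
    ∃ A : AbVar K 3, GeomSimple A ∧ ∀ (F : Type) [Field F] [DecidableEq F] [Algebra K F],
      ∃ e : A.Pt F ≃+ (TH954.X.We.curve (algebraMap K F a) (algebraMap K F b)).toAffine.Point,
        ∀ P : A.Pt F, P.1 = TH954.X.We.coords (e P) := by
  obtain ⟨A, hA, h⟩ := K1H82.KA.weier le_rfl a b hD
  refine ⟨A, hA, fun F _ _ _ => ?_⟩
  obtain ⟨e, he⟩ := h F
  refine ⟨e, fun P => ?_⟩
  rw [he P]
  funext c
  exact dif_pos c.2

/-- The corollary on Diophantine sets: let `f = P / Q` be a regular function on `X ∖ W`, with forms
`P`, `Q` of the same degree. Then there are only finitely many elements of `K` which are, for **some**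
set of completions of `K`, isolated points of the Diophantine set `f (X(K) ∖ W)`. -/
theorem isolated : ∀ (K : Type) [Field K] [NumberField K] (N : ℕ)
    (eqX eqW : Set (MvPolynomial (Fin N) K)) (κ : Type) [Finite κ] (p : κ → PieceV K N),
    (∀ y, y ∈ RatPts eqX eqW ↔ ∃ i, y ∈ RatPts (p i).X.eqX (p i).X.eqW) →
    ∀ (P Q : MvPolynomial (Fin N) K) (d : ℕ), P.IsHomogeneous d → Q.IsHomogeneous d →
    (∀ y ∈ RatPts eqX eqW, eval y Q ≠ 0) →
    {t : K | ∃ (ι : Type) (L : ι → Type) (_ : ∀ i, NontriviallyNormedField (L i))
      (_ : ∀ i, CompleteSpace (L i)) (σ : ∀ i, K →+* L i), (∀ i, DenseRange (σ i)) ∧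
      IsoAt (dio eqX eqW P Q) σ t}.Finite := by
  intro K _ _ N eqX eqW κ _ p h P Q d hP hQ hQ0
  obtain ⟨𝒯, h𝒯, h1⟩ := result K N eqX eqW κ p h
  exact iso_fin h𝒯 h1 P Q d hP hQ hQ0

/-- An unconditional explicit case of `result`. Let `E_i : y_i² = f_i (x_i) = x_i³ + a_i x_i + b_i`,
`i < r`, be elliptic curves over the number field `K`, and `C` a linear subspace of `(ℤ / 2)ʳ`. The
quotient of the product of the affine curves `E_i ∖ {0}` by the group of the sign changes
`(y_i) ↦ (± y_i)` with product one on the elements of `C` is the affine variety with the coordinates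
`x_i` and `z_I = ∏_{i ∈ I} y_i`, `I ∈ C`, and the equations `z_0 = 1`,
`z_I z_J = z_{I + J} ∏_{i ∈ I ∩ J} f_i (x_i)`; here `codeEq` are these equations in homogeneous form.
For `C = {0, (1, …, 1)}` this is `z² = f_1 (x_1) ⋯ f_r (x_r)`, and if `C` is the set of the vectors
of even weight, it is the Kummer variety of `E_1 × ⋯ × E_r` (without the curves at infinity). The
answer to the question is positive for these varieties, uniformly in all sets of places. -/
theorem codes : ∀ (K : Type) [Field K] [NumberField K] (r N : ℕ)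
    (C : Submodule (ZMod 2) (Fin r → ZMod 2)) (e : Fin N ≃ Fin r ⊕ C) (a b : Fin r → K),
    (∀ i, 4 * a i ^ 3 + 27 * b i ^ 2 ≠ 0) →
    ∃ 𝒯 : Set (Set (MvPolynomial (Fin N) K)), 𝒯.Finite ∧
      ∀ (ι : Type) (L : ι → Type) [∀ i, NontriviallyNormedField (L i)]
        [∀ i, CompleteSpace (L i)] (σ : ∀ i, K →+* L i), (∀ i, DenseRange (σ i)) →
        ∀ x : ∀ i, Fin N → L i, (∀ i, x i ≠ 0) →
          IdealAt (codeEq e a b) {X (e.symm (Sum.inr 0))} σ x ∈ 𝒯 := by
  intro K _ _ r N C e a b hD
  exact uni_all (code_uni e a b K1H26.KT.t_DEN K1H33.KT.t_SML hD)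

end Pool.Agent.Results.MP_f9f755_nt.TorsorAffineQuotients
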