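import Pool.Agent.K1H82.KV.Gen
import Pool.Agent.K1H82.KV.Iso
import Pool.Agent.K1H26.KT.Den
import Pool.Agent.K1H33.KT.Sml

/-!
# A uniform answer to Mazur's question for quotients of products of torsors of tori and of abelian
# varieties and affine spaces
-/

set_option autoImplicit false

namespace Pool.Agent.Results.MP_f9f755_nt.UniformTorsorAffineQuotients

open MvPolynomial Pool.Agent.K1H82.KM Pool.Agent.K1H82.KR Pool.Agent.K1H82.KS Pool.Agent.K1H82.KV

/-- Let `K` be a number field and `X` a projective variety over `K` with a closed subset `W` (which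
may be empty: `eqW = {1}`), such that the set of the rational points of `X` outside `W` is the union
of finitely many sets `X_i(K) ∖ W_i`, where `X_i ∖ W_i` is the quotient of an open subset of a
product of a torsor of a torus, an affine space and a torsor of an abelian variety over `K` by a
group (finite or infinite) which acts on the torsor of the abelian variety through a finite
quotient. Then there is a finite set of ideals which contains the ideals of the local Zariski
closures of `X(K) ∖ W` at all the points of the products of the `X(L i)`, for **all** sets of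
completions `L i` of `K` (one place, finitely many places, or all the places). -/
theorem result : ∀ (K : Type) [Field K] [NumberField K] (N : ℕ)
    (eqX eqW : Set (MvPolynomial (Fin N) K)) (κ : Type) [Finite κ] (p : κ → PieceW K N),
    (∀ y, y ∈ RatPts eqX eqW ↔ ∃ i, y ∈ RatPts (p i).X.eqX (p i).X.eqW) →
    ∃ 𝒯 : Set (Set (MvPolynomial (Fin N) K)), 𝒯.Finite ∧
      ∀ (ι : Type) (L : ι → Type) [∀ i, NontriviallyNormedField (L i)]
        [∀ i, CompleteSpace (L i)] (σ : ∀ i, K →+* L i), (∀ i, DenseRange (σ i)) →
        ∀ x : ∀ i, Fin N → L i, (∀ i, x i ≠ 0) → IdealAt eqX eqW σ x ∈ 𝒯 := by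
  intro K _ _ N eqX eqW κ _ p h
  exact uni_all (uni_cover h (fun i => uni_pieceW K1H26.KT.t_DEN K1H33.KT.t_SML (p i)))

/-- The corollary on Diophantine sets: let `f = P / Q` be a regular function on `X ∖ W`, with forms
`P`, `Q` of the same degree. Then there are only finitely many elements of `K` which are, for **some**
set of completions of `K`, isolated points of the Diophantine set `f (X(K) ∖ W)`. -/
theorem isolated : ∀ (K : Type) [Field K] [NumberField K] (N : ℕ)
    (eqX eqW : Set (MvPolynomial (Fin N) K)) (κ : Type) [Finite κ] (p : κ → PieceW K N),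
    (∀ y, y ∈ RatPts eqX eqW ↔ ∃ i, y ∈ RatPts (p i).X.eqX (p i).X.eqW) →
    ∀ (P Q : MvPolynomial (Fin N) K) (d : ℕ), P.IsHomogeneous d → Q.IsHomogeneous d →
    (∀ y ∈ RatPts eqX eqW, eval y Q ≠ 0) →
    {t : K | ∃ (ι : Type) (L : ι → Type) (_ : ∀ i, NontriviallyNormedField (L i))
      (_ : ∀ i, CompleteSpace (L i)) (σ : ∀ i, K →+* L i), (∀ i, DenseRange (σ i)) ∧
      IsoAt (dio eqX eqW P Q) σ t}.Finite := by
  intro K _ _ N eqX eqW κ _ p h P Q d hP hQ hQ0
  obtain ⟨𝒯, h𝒯, h1⟩ := result K N eqX eqW κ p h
  exact iso_fin h𝒯 h1 P Q d hP hQ hQ0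

end Pool.Agent.Results.MP_f9f755_nt.UniformTorsorAffineQuotients
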